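import Pool.Agent.Helper10.RC.Basic

/-!
# Weighted Hensel lifting in `K[t][Y]`
-/

set_option autoImplicit false

namespace Pool.Agent.Helper64.RC

open Pool.Agent.Helper10.RC MvPolynomial

section basics

variable {K : Type} [Field K] {n : ℕ} {θ : Fin n → ℝ} {h : ℝ}

lemma wt_add (α β : Fin n →₀ ℕ) (k l : ℕ) :
    wt θ h (α + β) (k + l) = wt θ h α k + wt θ h β l := by
  simp only [wt, Finsupp.add_apply, Nat.cast_add, mul_add, Finset.sum_add_distrib]
  ring

lemma wt_zero (k : ℕ) : wt θ h (0 : Fin n →₀ ℕ) k = h * k := by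
  simp [wt]

lemma coeff_coeff_mul (H G : Pl K n) (k : ℕ) (α : Fin n →₀ ℕ) :
    coeff α ((H * G).coeff k) = ∑ x ∈ Finset.HasAntidiagonal.antidiagonal k, ∑ y ∈ Finset.HasAntidiagonal.antidiagonal α,
      coeff y.1 (H.coeff x.1) * coeff y.2 (G.coeff x.2) := by
  rw [Polynomial.coeff_mul, coeff_sum]
  exact Finset.sum_congr rfl fun x _ => coeff_mul _ _ _

lemma exists_of_coeff_mul {H G : Pl K n} {k : ℕ} {α : Fin n →₀ ℕ}
    (hne : coeff α ((H * G).coeff k) ≠ 0) :
    ∃ k₁ k₂ α₁ α₂, k₁ + k₂ = k ∧ α₁ + α₂ = α ∧ coeff α₁ (H.coeff k₁) ≠ 0 ∧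
      coeff α₂ (G.coeff k₂) ≠ 0 := by
  rw [coeff_coeff_mul] at hne
  obtain ⟨x, hx, hx'⟩ := Finset.exists_ne_zero_of_sum_ne_zero hne
  obtain ⟨y, hy, hy'⟩ := Finset.exists_ne_zero_of_sum_ne_zero hx'
  exact ⟨x.1, x.2, y.1, y.2, Finset.HasAntidiagonal.mem_antidiagonal.1 hx,
    Finset.HasAntidiagonal.mem_antidiagonal.1 hy,
    left_ne_zero_of_mul hy', right_ne_zero_of_mul hy'⟩

lemma leW_mono {w w' : ℝ} {H : Pl K n} (hH : LeW θ h w H) (hw : w ≤ w') : LeW θ h w' H :=
  fun k α hne => (hH k α hne).trans hw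

lemma leW_of_eq {w w' : ℝ} {H : Pl K n} (hH : LeW θ h w H) (hw : w = w') : LeW θ h w' H :=
  hw ▸ hH

lemma homW_le {w : ℝ} {H : Pl K n} (hH : HomW θ h w H) : LeW θ h w H :=
  fun k α hne => (hH k α hne).le

lemma leW_zero {w : ℝ} : LeW θ h w (0 : Pl K n) := by
  intro k α hne
  simp at hne

lemma leW_add {w : ℝ} {H G : Pl K n} (hH : LeW θ h w H) (hG : LeW θ h w G) :
    LeW θ h w (H + G) := by
  intro k α hne
  rw [Polynomial.coeff_add, coeff_add] at hne
  by_cases h0 : coeff α (H.coeff k) = 0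
  · refine hG k α fun h1 => hne ?_
    rw [h0, h1, add_zero]
  · exact hH k α h0

lemma leW_neg {w : ℝ} {H : Pl K n} (hH : LeW θ h w H) : LeW θ h w (-H) := by
  intro k α hne
  rw [Polynomial.coeff_neg, coeff_neg] at hne
  exact hH k α (neg_ne_zero.1 hne)

lemma leW_sub {w : ℝ} {H G : Pl K n} (hH : LeW θ h w H) (hG : LeW θ h w G) :
    LeW θ h w (H - G) := by
  rw [sub_eq_add_neg]
  exact leW_add hH (leW_neg hG)

lemma leW_mul {w w' : ℝ} {H G : Pl K n} (hH : LeW θ h w H) (hG : LeW θ h w' G) :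
    LeW θ h (w + w') (H * G) := by
  intro k α hne
  obtain ⟨k₁, k₂, α₁, α₂, rfl, rfl, h1, h2⟩ := exists_of_coeff_mul hne
  rw [wt_add]
  exact add_le_add (hH _ _ h1) (hG _ _ h2)

/-- A monomial `a Y ^ k` where `a` is the coefficient of `Y ^ (k + l)` of `H`. -/
lemma leW_lead {w : ℝ} {H : Pl K n} (hH : LeW θ h w H) (k l : ℕ) :
    LeW θ h (w - h * l) (Polynomial.C (H.coeff (k + l)) * Polynomial.X ^ k) := by
  intro i α hne
  rw [Polynomial.coeff_C_mul, Polynomial.coeff_X_pow] at hne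
  by_cases hi : i = k
  · subst hi
    rw [if_pos rfl, mul_one] at hne
    have h1 := hH _ _ hne
    have h2 := wt_add (θ := θ) (h := h) α 0 i l
    rw [add_zero, wt_zero] at h2
    linarith
  · rw [if_neg hi, mul_zero, coeff_zero] at hne
    exact absurd rfl hne

/-- Division with remainder by a monic homogeneous polynomial. -/
lemma leW_divMod {Q : Pl K n} (hQm : Q.Monic) (hQ : HomW θ h (h * Q.natDegree) Q) :
    ∀ (N : ℕ) (w : ℝ) (H : Pl K n), H.natDegree ≤ N → LeW θ h w H →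
      LeW θ h w (H %ₘ Q) ∧ LeW θ h (w - h * Q.natDegree) (H /ₘ Q) := by
  intro N
  induction N using Nat.strong_induction_on with
  | _ N ih =>
    intro w H hN hH
    by_cases hdeg : H.degree < Q.degree
    · rw [(Polynomial.modByMonic_eq_self_iff hQm).2 hdeg,
        (Polynomial.divByMonic_eq_zero_iff hQm).2 hdeg]
      exact ⟨hH, leW_zero⟩
    · have hle : Q.degree ≤ H.degree := not_lt.1 hdeg
      have hH0 : H ≠ 0 := by
        rintro rfl
        rw [Polynomial.degree_zero, le_bot_iff, Polynomial.degree_eq_bot] at hle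
        exact hQm.ne_zero hle
      have hnat : Q.natDegree ≤ H.natDegree := Polynomial.natDegree_le_natDegree hle
      set q : Pl K n := Polynomial.C H.leadingCoeff * Polynomial.X ^ (H.natDegree - Q.natDegree)
        with hq
      have hqW : LeW θ h (w - h * Q.natDegree) q := by
        have h1 := leW_lead hH (H.natDegree - Q.natDegree) Q.natDegree
        rwa [Nat.sub_add_cancel hnat] at h1
      have hrW : LeW θ h w (H - Q * q) := by
        refine leW_sub hH ?_
        refine leW_of_eq (leW_mul (homW_le hQ) hqW) ?_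
        ring
      have hlt : (H - Q * q).degree < H.degree :=
        Polynomial.div_wf_lemma ⟨hle, hH0⟩ hQm
      have hdm := Polynomial.div_modByMonic_unique (f := H) (g := Q) (q + (H - Q * q) /ₘ Q)
        ((H - Q * q) %ₘ Q) hQm ⟨by
          rw [mul_add]
          have := Polynomial.modByMonic_add_div (H - Q * q) Q
          linear_combination this, Polynomial.degree_modByMonic_lt _ hQm⟩
      by_cases hr0 : H - Q * q = 0
      · rw [hr0, Polynomial.zero_divByMonic, Polynomial.zero_modByMonic, add_zero] at hdm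
        rw [hdm.1, hdm.2]
        exact ⟨leW_zero, hqW⟩
      · have hlt' : (H - Q * q).natDegree < H.natDegree :=
          Polynomial.natDegree_lt_natDegree hr0 hlt
        obtain ⟨h1, h2⟩ := ih (H - Q * q).natDegree (lt_of_lt_of_le hlt' hN) w (H - Q * q) le_rfl hrW
        rw [hdm.1, hdm.2]
        exact ⟨h1, leW_add hqW h2⟩

end basics

lemma step_identity {A : Type*} [CommRing A] (S G q₁ q₂ B₁ B₂ E D E0 A₁ A₂ r : A) (σ : ℕ)
    (a7 : (q₁ + S * G * B₁) * (q₂ + S * G * B₂) =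
      q₁ * q₂ + S * (G ^ 2 * r) + S ^ (σ + 1) * G ^ 2 * E)
    (hb : q₁ * A₂ + q₂ * A₁ = G * E0) (hd : D * S + E0 = E) :
    (q₁ + S * G * (B₁ - S ^ σ * A₁)) * (q₂ + S * G * (B₂ - S ^ σ * A₂)) =
      q₁ * q₂ + S * (G ^ 2 * r) +
        S ^ (σ + 1 + 1) * G ^ 2 * (D - (A₁ * B₂ + A₂ * B₁) + S ^ σ * (A₁ * A₂)) := by
  linear_combination a7 - S ^ (σ + 1) * G * hb - S ^ (σ + 1) * G ^ 2 * hd

theorem hensel {K : Type} [Field K] {n : ℕ} (θ : Fin n → ℝ) (h : ℝ) (Q₁ Q₂ U V R : Pl K n)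
    (g : MvPolynomial (Fin n) K) (w c : ℝ) (hQ₁ : Q₁.Monic) (hQ₂ : Q₂.Monic)
    (h₁ : HomW θ h (h * Q₁.natDegree) Q₁) (h₂ : HomW θ h (h * Q₂.natDegree) Q₂)
    (hU : HomW θ h (w - h * Q₁.natDegree) U) (hV : HomW θ h (w - h * Q₂.natDegree) V)
    (hg : HomW θ h w (Polynomial.C g)) (hg0 : g ≠ 0) (hUV : U * Q₁ + V * Q₂ = Polynomial.C g)
    (hR : LeW θ h (h * (Q₁.natDegree + Q₂.natDegree : ℕ) - c) R)
    (hRd : R.degree < (Q₁.natDegree + Q₂.natDegree : ℕ)) (τ : ℕ) (hτ : 1 ≤ τ) :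
    ∃ B₁ B₂ E : Polynomial (Pl K n),
      (∀ j, (B₁.coeff j).degree < Q₁.degree) ∧ (∀ j, (B₂.coeff j).degree < Q₂.degree) ∧
      (∀ j : ℕ, LeW θ h (h * Q₁.natDegree - w - (j + 1) * (c - 2 * w)) (B₁.coeff j)) ∧
      (∀ j : ℕ, LeW θ h (h * Q₂.natDegree - w - (j + 1) * (c - 2 * w)) (B₂.coeff j)) ∧
      (∀ j : ℕ, LeW θ h (h * (Q₁.natDegree + Q₂.natDegree : ℕ) - 2 * w - (τ + j) * (c - 2 * w))
        (E.coeff j)) ∧
      (Polynomial.C Q₁ + Polynomial.X * Polynomial.C (Polynomial.C g) * B₁) *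
          (Polynomial.C Q₂ + Polynomial.X * Polynomial.C (Polynomial.C g) * B₂) =
        Polynomial.C (Q₁ * Q₂) + Polynomial.X * Polynomial.C (Polynomial.C g ^ 2 * R) +
          Polynomial.X ^ τ * Polynomial.C (Polynomial.C g ^ 2) * E := by
  suffices hkey : ∃ B₁ B₂ E : Polynomial (Pl K n),
      (∀ j, (B₁.coeff j).degree < Q₁.degree) ∧ (∀ j, (B₂.coeff j).degree < Q₂.degree) ∧
      (∀ j, (E.coeff j).degree < (Q₁.natDegree + Q₂.natDegree : ℕ)) ∧
      (∀ j : ℕ, LeW θ h (h * Q₁.natDegree - w - (j + 1) * (c - 2 * w)) (B₁.coeff j)) ∧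
      (∀ j : ℕ, LeW θ h (h * Q₂.natDegree - w - (j + 1) * (c - 2 * w)) (B₂.coeff j)) ∧
      (∀ j : ℕ, LeW θ h (h * (Q₁.natDegree + Q₂.natDegree : ℕ) - 2 * w - (τ + j) * (c - 2 * w))
        (E.coeff j)) ∧
      (Polynomial.C Q₁ + Polynomial.X * Polynomial.C (Polynomial.C g) * B₁) *
          (Polynomial.C Q₂ + Polynomial.X * Polynomial.C (Polynomial.C g) * B₂) =
        Polynomial.C (Q₁ * Q₂) + Polynomial.X * Polynomial.C (Polynomial.C g ^ 2 * R) +
          Polynomial.X ^ τ * Polynomial.C (Polynomial.C g ^ 2) * E by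
    obtain ⟨B₁, B₂, E, a1, a2, -, a4, a5, a6, a7⟩ := hkey
    exact ⟨B₁, B₂, E, a1, a2, a4, a5, a6, a7⟩
  have hbot : ∀ Q : Pl K n, Q.Monic → (⊥ : WithBot ℕ) < Q.degree := fun Q hQ =>
    bot_lt_iff_ne_bot.2 fun hb => hQ.ne_zero (Polynomial.degree_eq_bot.1 hb)
  have hd₁ : Q₁.degree = (Q₁.natDegree : WithBot ℕ) := Polynomial.degree_eq_natDegree hQ₁.ne_zero
  have hd₂ : Q₂.degree = (Q₂.natDegree : WithBot ℕ) := Polynomial.degree_eq_natDegree hQ₂.ne_zero
  have hmulE : ∀ A B : Pl K n, A.degree < Q₁.degree → B.degree < Q₂.degree →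
      (A * B).degree < (Q₁.natDegree + Q₂.natDegree : ℕ) := by
    intro A B hA hB
    by_cases hA0 : A = 0
    · rw [hA0, zero_mul, Polynomial.degree_zero]
      exact WithBot.bot_lt_coe _
    by_cases hB0 : B = 0
    · rw [hB0, mul_zero, Polynomial.degree_zero]
      exact WithBot.bot_lt_coe _
    rw [hd₁] at hA
    rw [hd₂] at hB
    have hA' := (Polynomial.natDegree_lt_iff_degree_lt hA0).2 hA
    have hB' := (Polynomial.natDegree_lt_iff_degree_lt hB0).2 hB
    refine lt_of_le_of_lt (Polynomial.degree_mul_le _ _) ?_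
    rw [Polynomial.degree_eq_natDegree hA0, Polynomial.degree_eq_natDegree hB0]
    exact_mod_cast add_lt_add hA' hB'
  induction τ, hτ using Nat.le_induction with
  | base =>
    refine ⟨0, 0, -Polynomial.C R, fun j => ?_, fun j => ?_, fun j => ?_, fun j => ?_, fun j => ?_,
      fun j => ?_, ?_⟩
    · rw [Polynomial.coeff_zero, Polynomial.degree_zero]
      exact hbot _ hQ₁
    · rw [Polynomial.coeff_zero, Polynomial.degree_zero]
      exact hbot _ hQ₂
    · rw [Polynomial.coeff_neg, Polynomial.degree_neg, Polynomial.coeff_C]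
      split_ifs
      · exact hRd
      · rw [Polynomial.degree_zero]
        exact WithBot.bot_lt_coe _
    · rw [Polynomial.coeff_zero]
      exact leW_zero
    · rw [Polynomial.coeff_zero]
      exact leW_zero
    · rw [Polynomial.coeff_neg, Polynomial.coeff_C]
      split_ifs with hj
      · subst hj
        refine leW_of_eq (leW_neg hR) ?_
        push_cast
        ring
      · rw [neg_zero]
        exact leW_zero
    · simp only [map_mul, map_pow, mul_zero, add_zero, pow_one]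
      ring
  | succ τ hτ ih =>
    obtain ⟨B₁, B₂, E, a1, a2, a3, a4, a5, a6, a7⟩ := ih
    set E0 : Pl K n := E.coeff 0 with hE0
    set q : Pl K n := (V * E0) /ₘ Q₁ with hq
    set A₁ : Pl K n := (V * E0) %ₘ Q₁ with hA₁
    set A₂ : Pl K n := U * E0 + Q₂ * q with hA₂
    have hdm : A₁ + Q₁ * q = V * E0 := Polynomial.modByMonic_add_div _ _
    have hbez : Q₁ * A₂ + Q₂ * A₁ = Polynomial.C g * E0 := by
      rw [hA₂]
      linear_combination Q₂ * hdm + E0 * hUV
    have hA₁d : A₁.degree < Q₁.degree := Polynomial.degree_modByMonic_lt _ hQ₁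
    have hE0d : E0.degree < (Q₁.natDegree + Q₂.natDegree : ℕ) := a3 0
    have hA₂d : A₂.degree < Q₂.degree := by
      have h3 : (Q₁ * A₂).degree < (Q₁.natDegree + Q₂.natDegree : ℕ) := by
        have h4 : Q₁ * A₂ = Polynomial.C g * E0 - Q₂ * A₁ := by linear_combination hbez
        rw [h4]
        refine lt_of_le_of_lt (Polynomial.degree_sub_le _ _) (max_lt ?_ ?_)
        · refine lt_of_le_of_lt (Polynomial.degree_mul_le _ _) ?_
          refine lt_of_le_of_lt (add_le_add_left Polynomial.degree_C_le _) ?_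
          rw [zero_add]
          exact hE0d
        · by_cases h0 : A₁ = 0
          · rw [h0, mul_zero, Polynomial.degree_zero]
            exact WithBot.bot_lt_coe _
          · have h5 := hA₁d
            rw [hd₁] at h5
            have h5' := (Polynomial.natDegree_lt_iff_degree_lt h0).2 h5
            refine lt_of_le_of_lt (Polynomial.degree_mul_le _ _) ?_
            rw [Polynomial.degree_eq_natDegree h0, hd₂]
            have h6 : Q₂.natDegree + A₁.natDegree < Q₁.natDegree + Q₂.natDegree := by omega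
            exact_mod_cast h6
      by_cases h0 : A₂ = 0
      · rw [h0, Polynomial.degree_zero]
        exact hbot _ hQ₂
      · rw [mul_comm, hQ₁.degree_mul, Polynomial.degree_eq_natDegree h0, hd₁] at h3
        rw [Polynomial.degree_eq_natDegree h0, hd₂]
        have h6 : A₂.natDegree + Q₁.natDegree < Q₁.natDegree + Q₂.natDegree := by exact_mod_cast h3
        have h7 : A₂.natDegree < Q₂.natDegree := by omega
        exact_mod_cast h7
    have hE0W : LeW θ h (h * (Q₁.natDegree + Q₂.natDegree : ℕ) - 2 * w - τ * (c - 2 * w)) E0 := by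
      refine leW_of_eq (a6 0) ?_
      push_cast
      ring
    have hVE : LeW θ h (h * Q₁.natDegree - w - τ * (c - 2 * w)) (V * E0) := by
      refine leW_of_eq (leW_mul (homW_le hV) hE0W) ?_
      push_cast
      ring
    obtain ⟨hA₁W, hqW⟩ := leW_divMod hQ₁ h₁ (V * E0).natDegree _ (V * E0) le_rfl hVE
    have hA₂W : LeW θ h (h * Q₂.natDegree - w - τ * (c - 2 * w)) A₂ := by
      refine leW_add ?_ ?_
      · refine leW_of_eq (leW_mul (homW_le hU) hE0W) ?_
        push_cast
        ring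
      · refine leW_of_eq (leW_mul (homW_le h₂) hqW) ?_
        ring
    have hX : ∀ (A : Pl K n) (j : ℕ),
        (Polynomial.X ^ (τ - 1) * Polynomial.C A : Polynomial (Pl K n)).coeff j =
          if j = τ - 1 then A else 0 := by
      intro A j
      rw [Polynomial.coeff_mul_C, Polynomial.coeff_X_pow]
      split_ifs <;> simp
    refine ⟨B₁ - Polynomial.X ^ (τ - 1) * Polynomial.C A₁,
      B₂ - Polynomial.X ^ (τ - 1) * Polynomial.C A₂,
      E.divX - (Polynomial.C A₁ * B₂ + Polynomial.C A₂ * B₁) +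
        Polynomial.X ^ (τ - 1) * Polynomial.C (A₁ * A₂), fun j => ?_, fun j => ?_, fun j => ?_,
      fun j => ?_, fun j => ?_, fun j => ?_, ?_⟩
    · rw [Polynomial.coeff_sub, hX]
      refine lt_of_le_of_lt (Polynomial.degree_sub_le _ _) (max_lt (a1 j) ?_)
      split_ifs
      · exact hA₁d
      · rw [Polynomial.degree_zero]
        exact hbot _ hQ₁
    · rw [Polynomial.coeff_sub, hX]
      refine lt_of_le_of_lt (Polynomial.degree_sub_le _ _) (max_lt (a2 j) ?_)
      split_ifs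
      · exact hA₂d
      · rw [Polynomial.degree_zero]
        exact hbot _ hQ₂
    · rw [Polynomial.coeff_add, Polynomial.coeff_sub, Polynomial.coeff_add, hX,
        Polynomial.coeff_divX, Polynomial.coeff_C_mul, Polynomial.coeff_C_mul]
      refine lt_of_le_of_lt (Polynomial.degree_add_le _ _) (max_lt ?_ ?_)
      · refine lt_of_le_of_lt (Polynomial.degree_sub_le _ _) (max_lt (a3 _) ?_)
        refine lt_of_le_of_lt (Polynomial.degree_add_le _ _) (max_lt ?_ ?_)
        · exact hmulE _ _ hA₁d (a2 j)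
        · rw [mul_comm]
          exact hmulE _ _ (a1 j) hA₂d
      · split_ifs
        · exact hmulE _ _ hA₁d hA₂d
        · rw [Polynomial.degree_zero]
          exact WithBot.bot_lt_coe _
    · rw [Polynomial.coeff_sub, hX]
      refine leW_sub (a4 j) ?_
      split_ifs with hj
      · refine leW_of_eq hA₁W ?_
        have : ((j : ℝ) + 1) = τ := by
          subst hj
          rw [Nat.cast_sub hτ]
          push_cast
          ring
        rw [this]
      · exact leW_zero
    · rw [Polynomial.coeff_sub, hX]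
      refine leW_sub (a5 j) ?_
      split_ifs with hj
      · refine leW_of_eq hA₂W ?_
        have : ((j : ℝ) + 1) = τ := by
          subst hj
          rw [Nat.cast_sub hτ]
          push_cast
          ring
        rw [this]
      · exact leW_zero
    · rw [Polynomial.coeff_add, Polynomial.coeff_sub, Polynomial.coeff_add, hX,
        Polynomial.coeff_divX, Polynomial.coeff_C_mul, Polynomial.coeff_C_mul]
      refine leW_add (leW_sub ?_ (leW_add ?_ ?_)) ?_
      · refine leW_of_eq (a6 (j + 1)) ?_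
        push_cast
        ring
      · refine leW_of_eq (leW_mul hA₁W (a5 j)) ?_
        push_cast
        ring
      · refine leW_of_eq (leW_mul hA₂W (a4 j)) ?_
        push_cast
        ring
      · split_ifs with hj
        · refine leW_of_eq (leW_mul hA₁W hA₂W) ?_
          have : (j : ℝ) = τ - 1 := by
            subst hj
            rw [Nat.cast_sub hτ]
            push_cast
            ring
          rw [this]
          push_cast
          ring
        · exact leW_zero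
    · have hdivX : E.divX * Polynomial.X + Polynomial.C E0 = E := Polynomial.divX_mul_X_add E
      have hb : Polynomial.C Q₁ * Polynomial.C A₂ + Polynomial.C Q₂ * Polynomial.C A₁ =
          Polynomial.C (Polynomial.C g) * Polynomial.C E0 := by
        rw [← map_mul, ← map_mul, ← map_mul, ← map_add, hbez]
      obtain ⟨σ, rfl⟩ : ∃ σ, τ = σ + 1 := ⟨τ - 1, by omega⟩
      rw [Nat.add_sub_cancel]
      simp only [map_mul, map_pow] at a7 ⊢
      exact step_identity (A := Polynomial (Pl K n)) Polynomial.X (Polynomial.C (Polynomial.C g))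
        (Polynomial.C Q₁) (Polynomial.C Q₂) B₁ B₂ E E.divX (Polynomial.C E0) (Polynomial.C A₁)
        (Polynomial.C A₂) (Polynomial.C R) σ a7 hb hdivX

section components

variable {K : Type} [Field K] {n : ℕ} {θ : Fin n → ℝ} {h : ℝ}

open Classical in
/-- The component of weight `w`. -/
noncomputable def cmp (θ : Fin n → ℝ) (h w : ℝ) (H : Pl K n) : Pl K n :=
  ∑ k ∈ H.support, Polynomial.monomial k
    (∑ α ∈ (H.coeff k).support with wt θ h α k = w, monomial α (coeff α (H.coeff k)))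

open Classical in
lemma coeff_cmp (w : ℝ) (H : Pl K n) (k : ℕ) (α : Fin n →₀ ℕ) :
    coeff α ((cmp θ h w H).coeff k) = if wt θ h α k = w then coeff α (H.coeff k) else 0 := by
  rw [cmp, Polynomial.finsetSum_coeff]
  have h1 : ∀ b ∈ H.support, (Polynomial.monomial b
      (∑ β ∈ (H.coeff b).support with wt θ h β b = w, monomial β (coeff β (H.coeff b)))).coeff k =
      if b = k then ∑ β ∈ (H.coeff k).support with wt θ h β k = w,
        monomial β (coeff β (H.coeff k)) else 0 := by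
    intro b _
    rw [Polynomial.coeff_monomial]
    split_ifs with hb
    · rw [hb]
    · rfl
  rw [Finset.sum_congr rfl h1, Finset.sum_ite_eq']
  by_cases hk : k ∈ H.support
  · rw [if_pos hk, coeff_sum]
    have h2 : ∀ β ∈ (H.coeff k).support.filter (fun β => wt θ h β k = w),
        coeff α (monomial β (coeff β (H.coeff k))) =
          if β = α then coeff α (H.coeff k) else 0 := by
      intro β _
      rw [coeff_monomial]
      split_ifs with hb
      · rw [hb]
      · rfl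
    rw [Finset.sum_congr rfl h2, Finset.sum_ite_eq']
    by_cases hα : coeff α (H.coeff k) = 0
    · rw [hα, ite_self, ite_self]
    · refine if_congr ?_ rfl rfl
      rw [Finset.mem_filter, mem_support_iff]
      exact ⟨fun h => h.2, fun h => ⟨hα, h⟩⟩
  · rw [if_neg hk, coeff_zero]
    rw [Polynomial.mem_support_iff, not_not] at hk
    rw [hk, coeff_zero, ite_self]

lemma pl_ext {H G : Pl K n} (hHG : ∀ k α, coeff α (H.coeff k) = coeff α (G.coeff k)) : H = G :=
  Polynomial.ext fun k => MvPolynomial.ext _ _ fun α => hHG k α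

lemma homW_cmp (w : ℝ) (H : Pl K n) : HomW θ h w (cmp θ h w H) := by
  classical
  intro k α hne
  rw [coeff_cmp] at hne
  by_contra hcon
  exact hne (if_neg hcon)

lemma cmp_add (w : ℝ) (H G : Pl K n) : cmp θ h w (H + G) = cmp θ h w H + cmp θ h w G := by
  classical
  refine pl_ext fun k α => ?_
  rw [coeff_cmp, Polynomial.coeff_add, Polynomial.coeff_add, coeff_add, coeff_add, coeff_cmp,
    coeff_cmp]
  split_ifs
  · rfl
  · rw [add_zero]

lemma cmp_mul_homW (w a : ℝ) (U Q : Pl K n) (hQ : HomW θ h a Q) :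
    cmp θ h (w + a) (U * Q) = cmp θ h w U * Q := by
  classical
  refine pl_ext fun k α => ?_
  rw [coeff_cmp, coeff_coeff_mul, coeff_coeff_mul]
  split_ifs with hk
  · refine Finset.sum_congr rfl fun x hx => Finset.sum_congr rfl fun y hy => ?_
    rw [coeff_cmp]
    by_cases hq : coeff y.2 (Q.coeff x.2) = 0
    · rw [hq, mul_zero, mul_zero]
    · rw [if_pos]
      have h1 := hQ _ _ hq
      have h2 := wt_add (θ := θ) (h := h) y.1 y.2 x.1 x.2
      rw [Finset.HasAntidiagonal.mem_antidiagonal.1 hx,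
        Finset.HasAntidiagonal.mem_antidiagonal.1 hy] at h2
      linarith
  · refine (Finset.sum_eq_zero fun x hx => Finset.sum_eq_zero fun y hy => ?_).symm
    rw [coeff_cmp]
    by_cases hq : coeff y.2 (Q.coeff x.2) = 0
    · rw [hq, mul_zero]
    · rw [if_neg, zero_mul]
      intro h3
      have h1 := hQ _ _ hq
      have h2 := wt_add (θ := θ) (h := h) y.1 y.2 x.1 x.2
      rw [Finset.HasAntidiagonal.mem_antidiagonal.1 hx,
        Finset.HasAntidiagonal.mem_antidiagonal.1 hy] at h2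
      apply hk
      linarith

lemma cmp_mul_top (w₁ w₂ : ℝ) (H G : Pl K n) (hH : LeW θ h w₁ H) (hG : LeW θ h w₂ G) :
    cmp θ h (w₁ + w₂) (H * G) = cmp θ h w₁ H * cmp θ h w₂ G := by
  classical
  refine pl_ext fun k α => ?_
  rw [coeff_cmp, coeff_coeff_mul, coeff_coeff_mul]
  have key : ∀ x ∈ Finset.HasAntidiagonal.antidiagonal k,
      ∀ y ∈ Finset.HasAntidiagonal.antidiagonal α,
      coeff y.1 (H.coeff x.1) * coeff y.2 (G.coeff x.2) ≠ 0 →
      (wt θ h α k = w₁ + w₂ ↔ wt θ h y.1 x.1 = w₁ ∧ wt θ h y.2 x.2 = w₂) := by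
    intro x hx y hy hne
    have h1 := hH _ _ (left_ne_zero_of_mul hne)
    have h1' := hG _ _ (right_ne_zero_of_mul hne)
    have h2 := wt_add (θ := θ) (h := h) y.1 y.2 x.1 x.2
    rw [Finset.HasAntidiagonal.mem_antidiagonal.1 hx,
      Finset.HasAntidiagonal.mem_antidiagonal.1 hy] at h2
    constructor
    · intro h3
      constructor <;> linarith
    · rintro ⟨h3, h4⟩
      linarith
  split_ifs with hk
  · refine Finset.sum_congr rfl fun x hx => Finset.sum_congr rfl fun y hy => ?_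
    rw [coeff_cmp, coeff_cmp]
    by_cases hq : coeff y.1 (H.coeff x.1) * coeff y.2 (G.coeff x.2) = 0
    · rw [hq]
      rcases mul_eq_zero.1 hq with h0 | h0
      · rw [h0, ite_self, zero_mul]
      · rw [h0, ite_self, mul_zero]
    · obtain ⟨h3, h4⟩ := (key x hx y hy hq).1 hk
      rw [if_pos h3, if_pos h4]
  · refine (Finset.sum_eq_zero fun x hx => Finset.sum_eq_zero fun y hy => ?_).symm
    rw [coeff_cmp, coeff_cmp]
    by_cases hq : coeff y.1 (H.coeff x.1) * coeff y.2 (G.coeff x.2) = 0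
    · rcases mul_eq_zero.1 hq with h0 | h0
      · rw [h0, ite_self, zero_mul]
      · rw [h0, ite_self, mul_zero]
    · have h3 := mt (key x hx y hy hq).2 hk
      rw [not_and_or] at h3
      rcases h3 with h3 | h3
      · rw [if_neg h3, zero_mul]
      · rw [if_neg h3, mul_zero]

lemma exists_coeff_ne {H : Pl K n} (hH : H ≠ 0) : ∃ k α, coeff α (H.coeff k) ≠ 0 := by
  by_contra hcon
  push Not at hcon
  exact hH (pl_ext fun k α => by rw [hcon k α]; simp)

lemma exists_top (θ : Fin n → ℝ) (h : ℝ) {H : Pl K n} (hH : H ≠ 0) :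
    ∃ w, LeW θ h w H ∧ cmp θ h w H ≠ 0 := by
  classical
  set S : Finset (Σ _ : ℕ, (Fin n →₀ ℕ)) := H.support.sigma fun k => (H.coeff k).support with hS
  have hmem : ∀ k α, coeff α (H.coeff k) ≠ 0 → (⟨k, α⟩ : Σ _ : ℕ, (Fin n →₀ ℕ)) ∈ S := by
    intro k α hne
    rw [hS, Finset.mem_sigma]
    refine ⟨Polynomial.mem_support_iff.2 fun h0 => hne ?_, mem_support_iff.2 hne⟩
    rw [show H.coeff k = 0 from h0, coeff_zero]
  obtain ⟨k₀, α₀, h0⟩ := exists_coeff_ne hH
  obtain ⟨m, hm, hmax⟩ := Finset.exists_max_image S (fun x => wt θ h x.2 x.1) ⟨_, hmem _ _ h0⟩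
  refine ⟨wt θ h m.2 m.1, fun k α hne => hmax _ (hmem _ _ hne), fun h1 => ?_⟩
  have h2 := coeff_cmp (θ := θ) (h := h) (wt θ h m.2 m.1) H m.1 m.2
  rw [if_pos rfl, h1, Polynomial.coeff_zero, coeff_zero] at h2
  rw [hS, Finset.mem_sigma] at hm
  exact (mem_support_iff.1 hm.2) h2.symm

lemma wt_neg (α : Fin n →₀ ℕ) (k : ℕ) : wt (-θ) (-h) α k = -wt θ h α k := by
  simp only [wt, Pi.neg_apply, neg_mul, Finset.sum_neg_distrib]
  ring

lemma top_sum {W : ℝ} {Q₁ Q₂ : Pl K n} (h₁ : Q₁ ≠ 0) (h₂ : Q₂ ≠ 0)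
    (hQ : HomW θ h W (Q₁ * Q₂)) : ∃ w₁ w₂, LeW θ h w₁ Q₁ ∧ LeW θ h w₂ Q₂ ∧ w₁ + w₂ = W := by
  classical
  obtain ⟨w₁, a1, b1⟩ := exists_top θ h h₁
  obtain ⟨w₂, a2, b2⟩ := exists_top θ h h₂
  refine ⟨w₁, w₂, a1, a2, ?_⟩
  have h3 : cmp θ h (w₁ + w₂) (Q₁ * Q₂) ≠ 0 := by
    rw [cmp_mul_top _ _ _ _ a1 a2]
    exact mul_ne_zero b1 b2
  obtain ⟨k, α, hne⟩ := exists_coeff_ne h3
  rw [coeff_cmp] at hne
  split_ifs at hne with hw
  · rw [← hw]
    exact hQ k α hne
  · exact absurd rfl hne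

lemma homW_factor {W : ℝ} {Q₁ Q₂ : Pl K n} (hQ₁ : Q₁.Monic) (hQ₂ : Q₂.Monic)
    (hQ : HomW θ h W (Q₁ * Q₂)) : HomW θ h (h * Q₁.natDegree) Q₁ := by
  obtain ⟨w₁, w₂, a1, a2, a3⟩ := top_sum hQ₁.ne_zero hQ₂.ne_zero hQ
  obtain ⟨v₁, v₂, b1, b2, b3⟩ := top_sum (θ := -θ) (h := -h) (W := -W) hQ₁.ne_zero hQ₂.ne_zero
    (fun k α hne => by rw [wt_neg, hQ k α hne])
  obtain ⟨k, α, hne⟩ := exists_coeff_ne hQ₁.ne_zero
  obtain ⟨k', α', hne'⟩ := exists_coeff_ne hQ₂.ne_zero
  have c1 := a1 k α hne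
  have c2 := b1 k α hne
  have c3 := a2 k' α' hne'
  have c4 := b2 k' α' hne'
  rw [wt_neg] at c2 c4
  have hlead : coeff (0 : Fin n →₀ ℕ) (Q₁.coeff Q₁.natDegree) ≠ 0 := by
    rw [hQ₁.coeff_natDegree, coeff_zero_one]
    exact one_ne_zero
  have c5 := a1 _ _ hlead
  have c6 := b1 _ _ hlead
  rw [wt_neg] at c6
  rw [wt_zero] at c5 c6
  intro l β hl
  have c7 := a1 _ _ hl
  have c8 := b1 _ _ hl
  rw [wt_neg] at c8
  linarith

end components

theorem homog {K : Type} [Field K] {n : ℕ} (θ : Fin n → ℝ) (h : ℝ) (Q₁ Q₂ U V : Pl K n)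
    (g : MvPolynomial (Fin n) K) (hQ₁ : Q₁.Monic) (hQ₂ : Q₂.Monic)
    (hQ : HomW θ h (h * (Q₁.natDegree + Q₂.natDegree : ℕ)) (Q₁ * Q₂))
    (hg : g ≠ 0) (hUV : U * Q₁ + V * Q₂ = Polynomial.C g) :
    HomW θ h (h * Q₁.natDegree) Q₁ ∧ HomW θ h (h * Q₂.natDegree) Q₂ ∧
      ∃ (U' V' : Pl K n) (g' : MvPolynomial (Fin n) K) (w : ℝ), g' ≠ 0 ∧
        HomW θ h (w - h * Q₁.natDegree) U' ∧ HomW θ h (w - h * Q₂.natDegree) V' ∧
        HomW θ h w (Polynomial.C g') ∧ U' * Q₁ + V' * Q₂ = Polynomial.C g' := by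
  classical
  have h₁ : HomW θ h (h * Q₁.natDegree) Q₁ := homW_factor hQ₁ hQ₂ hQ
  have h₂ : HomW θ h (h * Q₂.natDegree) Q₂ :=
    homW_factor hQ₂ hQ₁ (W := h * (Q₁.natDegree + Q₂.natDegree : ℕ)) (by rwa [mul_comm Q₂ Q₁])
  refine ⟨h₁, h₂, ?_⟩
  obtain ⟨α, hα⟩ : ∃ α, coeff α g ≠ 0 := by
    by_contra hcon
    push Not at hcon
    exact hg (MvPolynomial.ext _ _ fun α => by rw [hcon α, coeff_zero])
  set w : ℝ := wt θ h α 0 with hw
  set g' : MvPolynomial (Fin n) K := (cmp θ h w (Polynomial.C g)).coeff 0 with hg'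
  have hC : cmp θ h w (Polynomial.C g) = Polynomial.C g' := by
    refine pl_ext fun k β => ?_
    rw [Polynomial.coeff_C]
    split_ifs with hk
    · rw [hk]
    · rw [coeff_cmp, Polynomial.coeff_C, if_neg hk, coeff_zero, ite_self]
  refine ⟨cmp θ h (w - h * Q₁.natDegree) U, cmp θ h (w - h * Q₂.natDegree) V, g', w, ?_,
    homW_cmp _ _, homW_cmp _ _, ?_, ?_⟩
  · intro h0
    have h1 := coeff_cmp (θ := θ) (h := h) w (Polynomial.C g) 0 α
    rw [← hg', h0, coeff_zero, if_pos hw.symm, Polynomial.coeff_C_zero] at h1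
    exact hα h1.symm
  · rw [← hC]
    exact homW_cmp _ _
  · rw [← cmp_mul_homW _ _ _ _ h₁, ← cmp_mul_homW _ _ _ _ h₂, sub_add_cancel, sub_add_cancel,
      ← cmp_add, hUV, hC]

end Pool.Agent.Helper64.RC
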