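import Pool.Agent.Helper64.PermBase

/-! The code of a subset of the block determines, and is determined by, its pattern. -/

set_option autoImplicit false

namespace Pool.Agent.Helper64

section cnt

variable {α γ : Type} [LinearOrder α] [LinearOrder γ]

/-- Number of members of `A` whose weight is below the weight of `a`. -/
def cnt (A : Finset α) (w : α → γ) (a : α) : ℕ := (A.filter (fun i => w i < w a)).card

omit [LinearOrder α] in
theorem cnt_lt_iff (A : Finset α) (w : α → γ) {a b : α} (ha : a ∈ A) (_hb : b ∈ A) :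
    cnt A w a < cnt A w b ↔ w a < w b := by
  constructor
  · intro h
    by_contra hn
    rw [not_lt] at hn
    apply absurd h
    rw [not_lt]
    apply Finset.card_le_card
    intro i hi
    rw [Finset.mem_filter] at hi ⊢
    exact ⟨hi.1, lt_of_lt_of_le hi.2 hn⟩
  · intro h
    apply Finset.card_lt_card
    rw [Finset.ssubset_iff_of_subset]
    · refine ⟨a, ?_, ?_⟩
      · rw [Finset.mem_filter]; exact ⟨ha, h⟩
      · rw [Finset.mem_filter]; intro h'; exact lt_irrefl _ h'.2
    · intro i hi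
      rw [Finset.mem_filter] at hi ⊢
      exact ⟨hi.1, hi.2.trans h⟩

omit [LinearOrder α] in
theorem cnt_emb (A B : Finset α) (w : α → γ) (f : α → α) (hfB : ∀ a ∈ A, f a ∈ B)
    (hsurj : ∀ b ∈ B, ∃ a ∈ A, f a = b) (hinj : Set.InjOn f A)
    (hw : ∀ a ∈ A, ∀ a' ∈ A, (w a < w a' ↔ w (f a) < w (f a'))) {a : α} (ha : a ∈ A) :
    cnt B w (f a) = cnt A w a := by
  symm
  unfold cnt
  apply Finset.card_bij (fun i _ => f i)
  · intro i hi
    rw [Finset.mem_filter] at hi ⊢
    exact ⟨hfB i hi.1, (hw i hi.1 a ha).mp hi.2⟩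
  · intro i hi j hj hij
    rw [Finset.mem_filter] at hi hj
    exact hinj hi.1 hj.1 hij
  · intro b hb
    rw [Finset.mem_filter] at hb
    obtain ⟨a', ha', rfl⟩ := hsurj b hb.1
    refine ⟨a', ?_, rfl⟩
    rw [Finset.mem_filter]
    exact ⟨ha', (hw a' ha' a ha).mpr hb.2⟩

end cnt

theorem emb_surj {α β : Type} [LinearOrder α] [LinearOrder β] {v : α → β} {A B : Finset α}
    {f g : α → α} (hf : Emb v A B f) (hg : Emb v B A g) : ∀ b ∈ B, ∃ a ∈ A, f a = b := by
  classical
  have hc : A.card = B.card := le_antisymm (Emb.card_le v hf) (Emb.card_le v hg)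
  have h1 : A.image f ⊆ B := by
    intro b hb
    obtain ⟨a, ha, rfl⟩ := Finset.mem_image.mp hb
    exact hf.1 a ha
  have h2 : (A.image f).card = A.card := Finset.card_image_of_injOn (Emb.injOn v hf)
  have h3 : A.image f = B := Finset.eq_of_subset_of_card_le h1 (by rw [h2, hc])
  intro b hb
  rw [← h3] at hb
  exact Finset.mem_image.mp hb

/-- exponent attached to a position -/
def ex (Z : ℕ) (j : Fin 16) : ℕ := 16 * posA Z j + rankA Z j

theorem posA_eq (Z : ℕ) (j : Fin 16) : posA Z j = cnt (AA Z) id j := rfl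

theorem rankA_eq (Z : ℕ) (j : Fin 16) : rankA Z j = cnt (AA Z) bv j := rfl

theorem rankA_lt (Z : ℕ) (j : Fin 16) : rankA Z j < 16 := by
  unfold rankA
  have h : ((AA Z).filter (fun i => bv i < bv j)) ⊂ (Finset.univ : Finset (Fin 16)) := by
    rw [Finset.ssubset_iff_of_subset (Finset.subset_univ _)]
    refine ⟨j, Finset.mem_univ _, ?_⟩
    rw [Finset.mem_filter]
    intro h'
    exact lt_irrefl _ h'.2
  have := Finset.card_lt_card h
  simpa using this

theorem ex_injOn (Z : ℕ) : Set.InjOn (ex Z) (AA Z) := by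
  intro a ha b hb hab
  have h1 := rankA_lt Z a
  have h2 := rankA_lt Z b
  unfold ex at hab
  have h3 : posA Z a = posA Z b := by omega
  rcases lt_trichotomy a b with h | h | h
  · have := (cnt_lt_iff (AA Z) id (Finset.mem_coe.mp ha) (Finset.mem_coe.mp hb)).mpr h
    rw [← posA_eq, ← posA_eq] at this
    omega
  · exact h
  · have := (cnt_lt_iff (AA Z) id (Finset.mem_coe.mp hb) (Finset.mem_coe.mp ha)).mpr h
    rw [← posA_eq, ← posA_eq] at this
    omega

theorem sum_two_pow_inj {s t : Finset ℕ} (h : ∑ i ∈ s, 2 ^ i = ∑ i ∈ t, 2 ^ i) : s = t := by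
  exact Finset.equivBitIndices.symm.injective h

theorem code_eq_sum (Z : ℕ) : code Z = ∑ i ∈ (AA Z).image (ex Z), 2 ^ i := by
  rw [Finset.sum_image (ex_injOn Z)]
  rfl

theorem image_ex_of_code {Z Z' : ℕ} (h : code Z = code Z') :
    (AA Z).image (ex Z) = (AA Z').image (ex Z') := by
  apply sum_two_pow_inj
  rw [← code_eq_sum, ← code_eq_sum, h]

theorem emb_of_code {Z Z' : ℕ} (h : code Z = code Z') : ∃ f, Emb bv (AA Z) (AA Z') f := by
  classical
  have him := image_ex_of_code h
  have h1 : ∀ j, j ∈ AA Z → ∃ j' ∈ AA Z', ex Z' j' = ex Z j := by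
    intro j hj
    have : ex Z j ∈ (AA Z').image (ex Z') := by
      rw [← him]; exact Finset.mem_image_of_mem _ hj
    exact Finset.mem_image.mp this
  choose! f hf1 hf2 using h1
  have hpos : ∀ j ∈ AA Z, posA Z' (f j) = posA Z j ∧ rankA Z' (f j) = rankA Z j := by
    intro j hj
    have h3 := hf2 j hj
    have h4 := rankA_lt Z j
    have h5 := rankA_lt Z' (f j)
    unfold ex at h3
    omega
  refine ⟨f, hf1, ?_, ?_⟩
  · intro a ha a' ha' haa
    have h2 := (cnt_lt_iff (AA Z) id ha ha').mpr haa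
    rw [← posA_eq, ← posA_eq, ← (hpos a ha).1, ← (hpos a' ha').1, posA_eq, posA_eq,
      cnt_lt_iff (AA Z') id (hf1 a ha) (hf1 a' ha')] at h2
    exact h2
  · intro a ha a' ha'
    rw [← cnt_lt_iff (AA Z) bv ha ha', ← cnt_lt_iff (AA Z') bv (hf1 a ha) (hf1 a' ha'),
      ← rankA_eq, ← rankA_eq, ← rankA_eq, ← rankA_eq, (hpos a ha).2, (hpos a' ha').2]

theorem code_of_emb {Z Z' : ℕ} {f g : Fin 16 → Fin 16} (hf : Emb bv (AA Z) (AA Z') f)
    (hg : Emb bv (AA Z') (AA Z) g) : code Z = code Z' := by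
  classical
  have hs := emb_surj hf hg
  have hi := Emb.injOn bv hf
  have hlt : ∀ a ∈ AA Z, ∀ a' ∈ AA Z, ((id a : Fin 16) < id a' ↔ id (f a) < id (f a')) := by
    intro a ha a' ha'
    constructor
    · intro h
      exact hf.2.1 a ha a' ha' h
    · intro h
      by_contra hn
      rw [not_lt] at hn
      rcases hn.lt_or_eq with h2 | h2
      · exact lt_asymm h (hf.2.1 a' ha' a ha h2)
      · have h3 : a' = a := h2
        rw [h3] at h
        exact lt_irrefl _ h
  have hex : ∀ a ∈ AA Z, ex Z' (f a) = ex Z a := by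
    intro a ha
    unfold ex
    rw [posA_eq, posA_eq, rankA_eq, rankA_eq, cnt_emb (AA Z) (AA Z') id f hf.1 hs hi hlt ha,
      cnt_emb (AA Z) (AA Z') bv f hf.1 hs hi hf.2.2 ha]
  rw [code_eq_sum, code_eq_sum]
  congr 1
  ext n
  simp only [Finset.mem_image]
  constructor
  · rintro ⟨a, ha, rfl⟩
    exact ⟨f a, hf.1 a ha, hex a ha⟩
  · rintro ⟨b, hb, rfl⟩
    obtain ⟨a, ha, rfl⟩ := hs b hb
    exact ⟨a, ha, (hex a ha).symm⟩

theorem KT_strict : KT.Pairwise (· < ·) := List.isChain_iff_pairwise.mp KT_chain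

theorem KT_inj {i j : ℕ} (hi : i < 193) (hj : j < 193) (h : KT.getD i 0 = KT.getD j 0) :
    i = j := by
  have hi' : i < KT.length := by rw [KT_len]; exact hi
  have hj' : j < KT.length := by rw [KT_len]; exact hj
  rw [List.getD_eq_getElem _ _ hi', List.getD_eq_getElem _ _ hj'] at h
  have hp := List.pairwise_iff_getElem.mp KT_strict
  rcases lt_trichotomy i j with h1 | h1 | h1
  · have := hp i j hi' hj' h1
    omega
  · exact h1
  · have := hp j i hj' hi' h1
    omega

theorem cid_lt {Z : ℕ} (hZ : Z < 256) : cid Z < 193 := (code_eq Z (List.mem_range.mpr hZ)).1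

theorem cid_eq_iff {Z Z' : ℕ} (hZ : Z < 256) (hZ' : Z' < 256) :
    cid Z = cid Z' ↔ code Z = code Z' := by
  have h1 := code_eq Z (List.mem_range.mpr hZ)
  have h2 := code_eq Z' (List.mem_range.mpr hZ')
  constructor
  · intro h
    rw [h1.2, h2.2, h]
  · intro h
    rw [h1.2, h2.2] at h
    exact KT_inj h1.1 h2.1 h

/-- the sets coded below `X` -/
def sub (X : ℕ) : Finset ℕ := (Finset.range 256).filter (fun Z => Z &&& X = Z)

theorem testBit_BX_aux (X : ℕ) (l : List ℕ) (c : ℕ) :
    (l.foldr (fun Z acc => if Z &&& X = Z then 2 ^ (cid Z) ||| acc else acc) 0).testBit c = true ↔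
      ∃ Z ∈ l, Z &&& X = Z ∧ cid Z = c := by
  induction l with
  | nil => simp
  | cons Z l ih =>
    rw [List.foldr_cons]
    by_cases h : Z &&& X = Z
    · rw [if_pos h, Nat.testBit_or, Bool.or_eq_true, ih, Nat.testBit_two_pow]
      simp only [List.mem_cons, exists_eq_or_imp, decide_eq_true_eq, h, true_and]
    · rw [if_neg h, ih]
      simp only [List.mem_cons, exists_eq_or_imp, h, false_and, false_or]

theorem list_sum_range (n : ℕ) (g : ℕ → ℤ) :
    ((List.range n).map g).sum = ∑ c ∈ Finset.range n, g c := by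
  induction n with
  | zero => simp
  | succ n ih => rw [List.range_succ, List.map_append, List.sum_append, Finset.sum_range_succ, ih]
                 simp

theorem sum_classes {X : ℕ} (hX : X < 256) (h0 : X ≠ 0) : ∑ c ∈ (sub X).image cid, mv c = 0 := by
  have h := sum_zero X (List.mem_range.mpr hX) h0
  rw [list_sum_range, ← Finset.sum_filter] at h
  rw [← h]
  congr 1
  ext c
  rw [Finset.mem_filter, Finset.mem_image, Finset.mem_range]
  unfold BX
  rw [testBit_BX_aux]
  constructor
  · rintro ⟨Z, hZ, rfl⟩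
    rw [sub, Finset.mem_filter, Finset.mem_range] at hZ
    exact ⟨cid_lt hZ.1, Z, List.mem_range.mpr hZ.1, hZ.2, rfl⟩
  · rintro ⟨_, Z, hZ, h2, rfl⟩
    refine ⟨Z, ?_, rfl⟩
    rw [sub, Finset.mem_filter, Finset.mem_range]
    exact ⟨List.mem_range.mp hZ, h2⟩

end Pool.Agent.Helper64
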