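import Mathlib

/-! Pattern poset of permutations, and patterns of finite subsets of a linear order. -/

set_option autoImplicit false

namespace Pool.Agent.Helper64

/-- Permutations of all lengths. -/
abbrev PP := Σ n : ℕ, Equiv.Perm (Fin n)

/-- Pattern containment. -/
def PLe (x y : PP) : Prop :=
  ∃ e : Fin x.1 → Fin y.1, StrictMono e ∧ ∀ i j, x.2 i < x.2 j ↔ y.2 (e i) < y.2 (e j)

theorem PLe.refl (x : PP) : PLe x x := ⟨id, strictMono_id, fun _ _ => Iff.rfl⟩

theorem PLe.trans {x y z : PP} (h : PLe x y) (h' : PLe y z) : PLe x z := by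
  obtain ⟨e, he, h1⟩ := h
  obtain ⟨e', he', h2⟩ := h'
  exact ⟨e' ∘ e, he'.comp he, fun i j => (h1 i j).trans (h2 (e i) (e j))⟩

theorem PLe.card_le {x y : PP} (h : PLe x y) : x.1 ≤ y.1 := by
  obtain ⟨e, he, _⟩ := h
  simpa using Fintype.card_le_of_injective e he.injective

theorem strictMono_self_eq {γ : Type} [LinearOrder γ] [Finite γ] (e : γ → γ) (he : StrictMono e)
    (x : γ) : e x = x :=
  le_antisymm he.apply_le he.le_apply

theorem PLe.eq_of_card {x y : PP} (h : PLe x y) (hc : x.1 = y.1) : x = y := by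
  obtain ⟨n, p⟩ := x
  obtain ⟨n', q⟩ := y
  dsimp only at hc
  subst hc
  obtain ⟨e, he, h1⟩ := h
  dsimp only at e he h1
  have hid : ∀ i, e i = i := fun i => strictMono_self_eq e he i
  have h2 : ∀ i j, p i < p j ↔ q i < q j := by
    intro i j
    have := h1 i j
    rwa [hid i, hid j] at this
  have h3 : StrictMono (fun i => q (p.symm i)) := by
    intro i j hij
    have := (h2 (p.symm i) (p.symm j)).mp (by simpa using hij)
    exact this
  have h4 : p = q := by
    ext i
    have := strictMono_self_eq _ h3 (p i)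
    simp only [Equiv.symm_apply_apply] at this
    rw [this]
  rw [h4]

theorem PLe.antisymm {x y : PP} (h : PLe x y) (h' : PLe y x) : x = y :=
  h.eq_of_card (le_antisymm h.card_le h'.card_le)

/-- The Moebius function of the pattern poset. -/
noncomputable def mob (x y : PP) : ℤ := by
  classical
  exact
  if x = y then 1 else if PLe x y then
    - ∑ n : Fin y.1, ∑ ρ : Equiv.Perm (Fin n),
      (if PLe x ⟨n, ρ⟩ ∧ PLe ⟨n, ρ⟩ y then mob x ⟨n, ρ⟩ else 0)
    else 0
termination_by y.1
decreasing_by exact n.2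

theorem mob_self (x : PP) : mob x x = 1 := by
  rw [mob]; simp

theorem mob_of_not_le {x y : PP} (h : ¬ PLe x y) : mob x y = 0 := by
  rw [mob]
  have : x ≠ y := by
    rintro rfl
    exact h (PLe.refl x)
  simp [this, h]

open Classical in
theorem mob_sum {x y : PP} (hne : x ≠ y) (h : PLe x y) :
    ∑ k ∈ Finset.range (y.1 + 1), ∑ ρ : Equiv.Perm (Fin k),
      (if PLe x ⟨k, ρ⟩ ∧ PLe ⟨k, ρ⟩ y then mob x ⟨k, ρ⟩ else 0) = 0 := by
  rw [Finset.sum_range_succ]
  have h1 : ∑ ρ : Equiv.Perm (Fin y.1),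
      (if PLe x ⟨y.1, ρ⟩ ∧ PLe ⟨y.1, ρ⟩ y then mob x ⟨y.1, ρ⟩ else 0) = mob x y := by
    rw [Finset.sum_eq_single y.2]
    · have : (⟨y.1, y.2⟩ : PP) = y := rfl
      rw [this, if_pos ⟨h, PLe.refl y⟩]
    · intro ρ _ hρ
      rw [if_neg]
      rintro ⟨_, h2⟩
      have := h2.eq_of_card rfl
      apply hρ
      have h3 : (⟨y.1, ρ⟩ : PP) = ⟨y.1, y.2⟩ := this
      exact eq_of_heq (Sigma.mk.inj h3).2
    · intro hn
      exact absurd (Finset.mem_univ _) hn
  rw [h1]
  have h2 : mob x y = - ∑ n : Fin y.1, ∑ ρ : Equiv.Perm (Fin n),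
      (if PLe x ⟨n, ρ⟩ ∧ PLe ⟨n, ρ⟩ y then mob x ⟨n, ρ⟩ else 0) := by
    rw [mob]
    rw [if_neg hne, if_pos h]
  rw [h2, Finset.sum_range]
  ring

section pat

variable {α β : Type} [LinearOrder α] [LinearOrder β]

/-- The pattern (standardisation) of a finite subset `A` of the linear order `α`, with values
given by the injective function `v`. -/
noncomputable def pat (v : α → β) (hv : Function.Injective v) (A : Finset α) : PP :=
  ⟨A.card, ((A.orderIsoOfFin rfl).toEquiv.trans
    ((Equiv.ofBijective (fun a : A => (⟨v a, Finset.mem_image_of_mem v a.2⟩ : A.image v))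
      ⟨fun a b hab => Subtype.ext (hv (congrArg Subtype.val hab)), fun b => by
        obtain ⟨a, ha, hab⟩ := Finset.mem_image.mp b.2
        exact ⟨⟨a, ha⟩, Subtype.ext hab⟩⟩))).trans
    ((A.image v).orderIsoOfFin (Finset.card_image_of_injective A hv)).toEquiv.symm⟩

variable (v : α → β) (hv : Function.Injective v)

theorem pat_fst (A : Finset α) : (pat v hv A).1 = A.card := rfl

/-- The increasing enumeration of `A`. -/
noncomputable def enm (A : Finset α) (i : Fin A.card) : α := A.orderEmbOfFin rfl i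

theorem enm_mem (A : Finset α) (i : Fin A.card) : enm A i ∈ A :=
  Finset.orderEmbOfFin_mem A rfl i

theorem enm_strictMono (A : Finset α) : StrictMono (enm A) :=
  (A.orderEmbOfFin rfl).strictMono

theorem enm_surj (A : Finset α) {a : α} (ha : a ∈ A) : ∃ i : Fin A.card, enm A i = a := by
  have := Finset.range_orderEmbOfFin A (rfl : A.card = A.card)
  have ha' : a ∈ Set.range (A.orderEmbOfFin rfl) := by
    rw [this]; exact ha
  exact ha'

theorem pat_lt (A : Finset α) (i j : Fin A.card) :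
    (pat v hv A).2 i < (pat v hv A).2 j ↔ v (enm A i) < v (enm A j) := by
  show ((A.image v).orderIsoOfFin (Finset.card_image_of_injective A hv)).symm _ <
    ((A.image v).orderIsoOfFin (Finset.card_image_of_injective A hv)).symm _ ↔ _
  rw [OrderIso.lt_iff_lt]
  exact Iff.rfl

/-- A map `f` embeds the pattern of `A` in the set `B`. -/
def Emb (A B : Finset α) (f : α → α) : Prop :=
  (∀ a ∈ A, f a ∈ B) ∧ (∀ a ∈ A, ∀ a' ∈ A, a < a' → f a < f a') ∧
    (∀ a ∈ A, ∀ a' ∈ A, (v a < v a' ↔ v (f a) < v (f a')))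

theorem Emb.injOn {A B : Finset α} {f : α → α} (h : Emb v A B f) : Set.InjOn f A := by
  intro a ha b hb hab
  rcases lt_trichotomy a b with h1 | h1 | h1
  · exact absurd hab (ne_of_lt (h.2.1 a ha b hb h1))
  · exact h1
  · exact absurd hab.symm (ne_of_lt (h.2.1 b hb a ha h1))

theorem Emb.card_le {A B : Finset α} {f : α → α} (h : Emb v A B f) : A.card ≤ B.card :=
  Finset.card_le_card_of_injOn f h.1 h.injOn

/-- An order-preserving map into `B` gives pattern containment. -/
theorem ple_pat_of {x : PP} {B : Finset α} (g : Fin x.1 → α) (hg : StrictMono g)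
    (hB : ∀ i, g i ∈ B) (h : ∀ i j, x.2 i < x.2 j ↔ v (g i) < v (g j)) :
    PLe x (pat v hv B) := by
  choose e he using fun i => enm_surj B (hB i)
  refine ⟨e, ?_, ?_⟩
  · intro i j hij
    have := hg hij
    rw [← he i, ← he j] at this
    exact (enm_strictMono B).lt_iff_lt.mp this
  · intro i j
    rw [h i j, ← he i, ← he j]
    exact (pat_lt v hv B (e i) (e j)).symm

theorem exists_of_ple_pat {x : PP} {B : Finset α} (h : PLe x (pat v hv B)) :
    ∃ g : Fin x.1 → α, StrictMono g ∧ (∀ i, g i ∈ B) ∧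
      ∀ i j, x.2 i < x.2 j ↔ v (g i) < v (g j) := by
  obtain ⟨e, he, h1⟩ := h
  refine ⟨fun i => enm B (e i), ?_, fun i => enm_mem B (e i), ?_⟩
  · intro i j hij
    exact enm_strictMono B (he hij)
  · intro i j
    rw [h1 i j]
    exact pat_lt v hv B (e i) (e j)

/-- The explicit map of sets attached to a containment of patterns. -/
theorem exists_emb {A B : Finset α} (e : Fin (pat v hv A).1 → Fin (pat v hv B).1)
    (he : StrictMono e)
    (h : ∀ i j, (pat v hv A).2 i < (pat v hv A).2 j ↔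
      (pat v hv B).2 (e i) < (pat v hv B).2 (e j)) :
    ∃ f : α → α, Emb v A B f ∧ ∀ i : Fin A.card, f (enm A i) = enm B (e i) := by
  classical
  have hsurj : ∀ a : α, a ∈ A → ∃ i : Fin A.card, enm A i = a := fun a ha => enm_surj A ha
  choose idx hidx using hsurj
  let f : α → α := fun a => if ha : a ∈ A then enm B (e (idx a ha)) else a
  have hf : ∀ i : Fin A.card, f (enm A i) = enm B (e i) := by
    intro i
    have hm := enm_mem A i
    simp only [f, dif_pos hm]
    have h2 : idx (enm A i) hm = i := (enm_strictMono A).injective (hidx _ hm)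
    rw [h2]
  refine ⟨f, ⟨?_, ?_, ?_⟩, hf⟩
  · intro a ha
    obtain ⟨i, rfl⟩ := enm_surj A ha
    rw [hf i]
    exact enm_mem B _
  · intro a ha a' ha' haa
    obtain ⟨i, rfl⟩ := enm_surj A ha
    obtain ⟨j, rfl⟩ := enm_surj A ha'
    rw [hf i, hf j]
    exact enm_strictMono B (he ((enm_strictMono A).lt_iff_lt.mp haa))
  · intro a ha a' ha'
    obtain ⟨i, rfl⟩ := enm_surj A ha
    obtain ⟨j, rfl⟩ := enm_surj A ha'
    rw [hf i, hf j]
    have h1 := h i j
    have h2 := pat_lt v hv A i j
    have h3 := pat_lt v hv B (e i) (e j)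
    rw [← h2, ← h3]
    exact h1

theorem pat_ple_pat {A B : Finset α} :
    PLe (pat v hv A) (pat v hv B) ↔ ∃ f, Emb v A B f := by
  constructor
  · rintro ⟨e, he, h⟩
    obtain ⟨f, hf, _⟩ := exists_emb v hv e he h
    exact ⟨f, hf⟩
  · rintro ⟨f, hf⟩
    refine ple_pat_of v hv (x := pat v hv A) (fun i => f (enm A i)) ?_ ?_ ?_
    · intro i j hij
      exact hf.2.1 _ (enm_mem A i) _ (enm_mem A j) (enm_strictMono A hij)
    · intro i
      exact hf.1 _ (enm_mem A i)
    · intro i j
      rw [pat_lt v hv A i j]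
      exact hf.2.2 _ (enm_mem A i) _ (enm_mem A j)

theorem pat_mono {A B : Finset α} (h : A ⊆ B) : PLe (pat v hv A) (pat v hv B) := by
  rw [pat_ple_pat]
  exact ⟨id, fun a ha => h ha, fun a _ a' _ h => h, fun a _ a' _ => Iff.rfl⟩

theorem pat_eq_iff {A B : Finset α} :
    pat v hv A = pat v hv B ↔ (∃ f, Emb v A B f) ∧ (∃ f, Emb v B A f) := by
  constructor
  · intro h
    constructor
    · rw [← pat_ple_pat v hv, h]; exact PLe.refl _
    · rw [← pat_ple_pat v hv, h]; exact PLe.refl _
  · rintro ⟨h1, h2⟩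
    rw [← pat_ple_pat v hv] at h1 h2
    exact h1.antisymm h2

theorem exists_subset_of_ple {x : PP} {B : Finset α} (h : PLe x (pat v hv B)) :
    ∃ A ⊆ B, x = pat v hv A := by
  classical
  obtain ⟨g, hg, hB, h1⟩ := exists_of_ple_pat v hv h
  refine ⟨Finset.univ.image g, ?_, ?_⟩
  · intro a ha
    obtain ⟨i, _, rfl⟩ := Finset.mem_image.mp ha
    exact hB i
  · apply PLe.eq_of_card
    · apply ple_pat_of v hv g hg (fun i => Finset.mem_image_of_mem g (Finset.mem_univ i)) h1
    · rw [pat_fst, Finset.card_image_of_injective _ hg.injective]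
      simp

end pat

end Pool.Agent.Helper64
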