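import Pool.Agent.Helper64.PermCode

/-! Direct powers of the block permutation. -/

set_option autoImplicit false

namespace Pool.Agent.Helper64

/-- Positions of the `k`-fold direct sum of the block. -/
abbrev LL (k : ℕ) := Fin k ×ₗ Fin 16

/-- Values of the `k`-fold direct sum of the block. -/
def vv (k : ℕ) (p : LL k) : LL k := toLex ((ofLex p).1, bv (ofLex p).2)

theorem vv_inj (k : ℕ) : Function.Injective (vv k) := by
  intro p q h
  unfold vv at h
  have h1 := toLex.injective h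
  rw [Prod.mk.injEq] at h1
  apply ofLex.injective
  exact Prod.ext h1.1 (bv_inj h1.2)

/-- The set of positions coded by a sequence of numbers. -/
def SS (k : ℕ) (Z : Fin k → ℕ) : Finset (LL k) :=
  Finset.univ.filter (fun p => inA (Z (ofLex p).1) (ofLex p).2 = true)

theorem mem_SS {k : ℕ} {Z : Fin k → ℕ} {i : Fin k} {j : Fin 16} :
    toLex (i, j) ∈ SS k Z ↔ inA (Z i) j = true := by
  unfold SS
  rw [Finset.mem_filter]
  simp

theorem mem_AA {Z : ℕ} {j : Fin 16} : j ∈ AA Z ↔ inA Z j = true := by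
  unfold AA
  rw [Finset.mem_filter]
  simp

theorem lex_lt {k m : ℕ} {a a' : Fin k} {b b' : Fin m} :
    (toLex (a, b) : Fin k ×ₗ Fin m) < toLex (a', b') ↔ a < a' ∨ a = a' ∧ b < b' := by
  rw [Prod.Lex.toLex_lt_toLex]

theorem lex_lt_same {k m : ℕ} {a : Fin k} {b b' : Fin m} :
    (toLex (a, b) : Fin k ×ₗ Fin m) < toLex (a, b') ↔ b < b' := by
  rw [lex_lt]
  constructor
  · rintro (h | h)
    · exact absurd h (lt_irrefl _)
    · exact h.2
  · intro h
    exact Or.inr ⟨rfl, h⟩

/-- Frame positions of the block. -/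
def grp (c : Fin 2) (r : Fin 4) : Fin 16 := ⟨4 + 8 * c.1 + r.1, by omega⟩

/-- Free positions of the block. -/
def fre (r : Fin 8) : Fin 16 := ⟨if r.1 < 4 then r.1 else r.1 + 4, by split <;> omega⟩

theorem classify : ∀ j : Fin 16,
    (∃ c : Fin 2, ∃ r : Fin 4, grp c r = j) ∨
    (∃ r : Fin 8, fre r = j ∧ ∀ Z ∈ List.range 256, inA Z j = Z.testBit r.1) := by
  decide +kernel

theorem inA_grp_aux : ∀ c : Fin 2, ∀ r : Fin 4, ∀ Z ∈ List.range 256, inA Z (grp c r) = true := by
  decide +kernel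

theorem inA_grp (c : Fin 2) (r : Fin 4) {Z : ℕ} (hZ : Z < 256) : inA Z (grp c r) = true :=
  inA_grp_aux c r Z (List.mem_range.mpr hZ)

theorem inA_fre_aux : ∀ r : Fin 8, ∀ Z ∈ List.range 256, inA Z (fre r) = Z.testBit r.1 := by
  decide +kernel

theorem inA_fre (r : Fin 8) {Z : ℕ} (hZ : Z < 256) : inA Z (fre r) = Z.testBit r.1 :=
  inA_fre_aux r Z (List.mem_range.mpr hZ)

theorem classify' (j : Fin 16) :
    (∃ c : Fin 2, ∃ r : Fin 4, grp c r = j) ∨ (∃ r : Fin 8, fre r = j) := by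
  rcases classify j with h | ⟨r, h, _⟩
  · exact Or.inl h
  · exact Or.inr ⟨r, h⟩

theorem same_fst {k : ℕ} {a a' : Fin k} {b b' : Fin 16}
    (h1 : (toLex (a, b) : LL k) < toLex (a', b'))
    (h2 : vv k (toLex (a', b')) < vv k (toLex (a, b))) : a = a' := by
  unfold vv at h2
  rw [lex_lt] at h1 h2
  simp only [ofLex_toLex] at h2
  rcases h1 with h1 | h1
  · rcases h2 with h2 | h2
    · exact absurd (h1.trans h2) (lt_irrefl _)
    · exact h2.1.symm
  · exact h1.1

theorem bv_grp_lt : ∀ c : Fin 2, bv (grp c 1) < bv (grp c 3) ∧ bv (grp c 3) < bv (grp c 0) ∧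
    bv (grp c 0) < bv (grp c 2) := by decide +kernel

theorem occ_lift {k : ℕ} (q0 q1 q2 q3 : LL k) (h01 : q0 < q1) (h12 : q1 < q2) (h23 : q2 < q3)
    (v13 : vv k q1 < vv k q3) (v30 : vv k q3 < vv k q0) (v02 : vv k q0 < vv k q2) :
    ∃ (a : Fin k) (c : Fin 2), q0 = toLex (a, grp c 0) ∧ q1 = toLex (a, grp c 1) ∧
      q2 = toLex (a, grp c 2) ∧ q3 = toLex (a, grp c 3) := by
  obtain ⟨⟨a0, b0⟩, rfl⟩ := toLex.surjective q0
  obtain ⟨⟨a1, b1⟩, rfl⟩ := toLex.surjective q1
  obtain ⟨⟨a2, b2⟩, rfl⟩ := toLex.surjective q2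
  obtain ⟨⟨a3, b3⟩, rfl⟩ := toLex.surjective q3
  have e01 : a0 = a1 := same_fst h01 (v13.trans v30)
  have e23 : a2 = a3 := same_fst h23 (v30.trans v02)
  have e03 : a0 = a3 := same_fst (h01.trans (h12.trans h23)) v30
  have e02 : a0 = a2 := e03.trans e23.symm
  subst e01
  subst e02
  subst e03
  rw [lex_lt_same] at h01 h12 h23
  unfold vv at v13 v30 v02
  simp only [ofLex_toLex] at v13 v30 v02
  rw [lex_lt_same] at v13 v30 v02
  rcases occ_3142 b0 b1 b2 b3 h01 h12 h23 v13 v30 v02 with ⟨p, q, r, s⟩ | ⟨p, q, r, s⟩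
  · refine ⟨a0, 0, ?_, ?_, ?_, ?_⟩
    · have : b0 = grp 0 0 := Fin.ext (by rw [p]; rfl)
      rw [this]
    · have : b1 = grp 0 1 := Fin.ext (by rw [q]; rfl)
      rw [this]
    · have : b2 = grp 0 2 := Fin.ext (by rw [r]; rfl)
      rw [this]
    · have : b3 = grp 0 3 := Fin.ext (by rw [s]; rfl)
      rw [this]
  · refine ⟨a0, 1, ?_, ?_, ?_, ?_⟩
    · have : b0 = grp 1 0 := Fin.ext (by rw [p]; rfl)
      rw [this]
    · have : b1 = grp 1 1 := Fin.ext (by rw [q]; rfl)
      rw [this]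
    · have : b2 = grp 1 2 := Fin.ext (by rw [r]; rfl)
      rw [this]
    · have : b3 = grp 1 3 := Fin.ext (by rw [s]; rfl)
      rw [this]

theorem grp_zero_lt {c c' : Fin 2} : grp c 0 < grp c' 0 ↔ c < c' := by
  unfold grp
  rw [Fin.lt_def, Fin.lt_def]
  simp

/-- Rigidity: an embedding of a set containing the frame fixes the frame. -/
theorem rigid {k : ℕ} {Z : Fin k → ℕ} (hZ : ∀ i, Z i < 256) {B : Finset (LL k)} {f : LL k → LL k}
    (h : Emb (vv k) (SS k Z) B f) (i : Fin k) (c : Fin 2) (r : Fin 4) :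
    f (toLex (i, grp c r)) = toLex (i, grp c r) := by
  have hmem : ∀ (i : Fin k) (c : Fin 2) (r : Fin 4), (toLex (i, grp c r) : LL k) ∈ SS k Z := by
    intro i c r
    rw [mem_SS]
    exact inA_grp c r (hZ i)
  have hg : ∀ t : Fin k ×ₗ Fin 2, ∃ t' : Fin k ×ₗ Fin 2, ∀ r : Fin 4,
      f (toLex ((ofLex t).1, grp (ofLex t).2 r)) =
        toLex ((ofLex t').1, grp (ofLex t').2 r) := by
    intro t
    obtain ⟨⟨i, c⟩, rfl⟩ := toLex.surjective t
    simp only [ofLex_toLex]
    have hb := bv_grp_lt c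
    have hlt : ∀ r r' : Fin 4, r < r' →
        f (toLex (i, grp c r)) < f (toLex (i, grp c r')) := by
      intro r r' hr
      apply h.2.1 _ (hmem i c r) _ (hmem i c r')
      rw [lex_lt_same]
      unfold grp
      rw [Fin.lt_def]
      simp only
      omega
    have hv : ∀ r r' : Fin 4, bv (grp c r) < bv (grp c r') →
        vv k (f (toLex (i, grp c r))) < vv k (f (toLex (i, grp c r'))) := by
      intro r r' hr
      rw [← h.2.2 _ (hmem i c r) _ (hmem i c r')]
      unfold vv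
      simp only [ofLex_toLex]
      rw [lex_lt_same]
      exact hr
    obtain ⟨a, c', h0, h1, h2, h3⟩ := occ_lift _ _ _ _ (hlt 0 1 (by decide)) (hlt 1 2 (by decide))
      (hlt 2 3 (by decide)) (hv 1 3 hb.1) (hv 3 0 hb.2.1) (hv 0 2 hb.2.2)
    refine ⟨toLex (a, c'), ?_⟩
    intro r
    simp only [ofLex_toLex]
    have hr : r = 0 ∨ r = 1 ∨ r = 2 ∨ r = 3 := by
      revert r; decide
    rcases hr with rfl | rfl | rfl | rfl
    · exact h0
    · exact h1
    · exact h2
    · exact h3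
  choose φ hφ using hg
  have hmono : StrictMono φ := by
    intro t t' htt
    have h1 := hφ t 0
    have h2 := hφ t' 0
    have h3 : f (toLex ((ofLex t).1, grp (ofLex t).2 0)) <
        f (toLex ((ofLex t').1, grp (ofLex t').2 0)) := by
      apply h.2.1 _ (hmem _ _ _) _ (hmem _ _ _)
      obtain ⟨⟨i, c⟩, rfl⟩ := toLex.surjective t
      obtain ⟨⟨i', c'⟩, rfl⟩ := toLex.surjective t'
      simp only [ofLex_toLex]
      rw [lex_lt] at htt ⊢
      rcases htt with htt | htt
      · exact Or.inl htt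
      · exact Or.inr ⟨htt.1, grp_zero_lt.mpr htt.2⟩
    rw [h1, h2, lex_lt] at h3
    have h4 : φ t = toLex ((ofLex (φ t)).1, (ofLex (φ t)).2) := rfl
    have h5 : φ t' = toLex ((ofLex (φ t')).1, (ofLex (φ t')).2) := rfl
    rw [h4, h5, lex_lt]
    rcases h3 with h3 | h3
    · exact Or.inl h3
    · exact Or.inr ⟨h3.1, grp_zero_lt.mp h3.2⟩
  have hid := strictMono_self_eq φ hmono (toLex (i, c))
  have := hφ (toLex (i, c)) r
  rw [hid] at this
  exact this

theorem block_fixed {k : ℕ} {Z : Fin k → ℕ} (hZ : ∀ i, Z i < 256) {B : Finset (LL k)}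
    {f : LL k → LL k} (h : Emb (vv k) (SS k Z) B f) (i : Fin k) (j : Fin 16)
    (hj : inA (Z i) j = true) : f (toLex (i, j)) = toLex (i, (ofLex (f (toLex (i, j)))).2) := by
  have hmem : (toLex (i, j) : LL k) ∈ SS k Z := mem_SS.mpr hj
  have h15 : ∀ i : Fin k, f (toLex (i, (15 : Fin 16))) = toLex (i, (15 : Fin 16)) :=
    fun i => rigid hZ h i 1 3
  have hm15 : ∀ i : Fin k, (toLex (i, (15 : Fin 16)) : LL k) ∈ SS k Z :=
    fun i => mem_SS.mpr (inA_grp 1 3 (hZ i))
  have hup : (ofLex (f (toLex (i, j)))).1 ≤ i := by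
    by_cases hj15 : j = 15
    · rw [hj15, h15]
      simp
    · have hlt : (toLex (i, j) : LL k) < toLex (i, (15 : Fin 16)) := by
        rw [lex_lt_same]
        rw [Fin.lt_def]
        have := j.2
        have h2 : j.1 ≠ 15 := fun h => hj15 (Fin.ext h)
        show j.1 < 15
        omega
      have h3 := h.2.1 _ hmem _ (hm15 i) hlt
      rw [h15] at h3
      have h4 : f (toLex (i, j)) = toLex ((ofLex (f (toLex (i, j)))).1,
        (ofLex (f (toLex (i, j)))).2) := rfl
      rw [h4, lex_lt] at h3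
      rcases h3 with h3 | h3
      · exact h3.le
      · exact h3.1.le
  have hlo : i ≤ (ofLex (f (toLex (i, j)))).1 := by
    by_contra hn
    rw [not_le] at hn
    set a := (ofLex (f (toLex (i, j)))).1 with ha
    -- the last frame point of block `a` is below the point, contradiction
    have hlt : (toLex (a, (15 : Fin 16)) : LL k) < toLex (i, j) := by
      rw [lex_lt]
      exact Or.inl hn
    have h3 := h.2.1 _ (hm15 a) _ hmem hlt
    rw [h15] at h3
    have h4 : f (toLex (i, j)) = toLex (a, (ofLex (f (toLex (i, j)))).2) := rfl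
    rw [h4, lex_lt_same] at h3
    rw [Fin.lt_def] at h3
    have := (ofLex (f (toLex (i, j)))).2.2
    have h5 : (15 : Fin 16).1 = 15 := rfl
    omega
  have heq : (ofLex (f (toLex (i, j)))).1 = i := le_antisymm hup hlo
  have h4 : f (toLex (i, j)) = toLex ((ofLex (f (toLex (i, j)))).1,
    (ofLex (f (toLex (i, j)))).2) := rfl
  rw [heq] at h4
  exact h4

theorem emb_restrict {k : ℕ} {Z Z' : Fin k → ℕ} (hZ : ∀ i, Z i < 256)
    {f : LL k → LL k} (h : Emb (vv k) (SS k Z) (SS k Z') f) (i : Fin k) :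
    ∃ g, Emb bv (AA (Z i)) (AA (Z' i)) g := by
  refine ⟨fun j => (ofLex (f (toLex (i, j)))).2, ?_, ?_, ?_⟩
  · intro j hj
    rw [mem_AA] at hj ⊢
    have h1 := block_fixed hZ h i j hj
    have h2 := h.1 _ (mem_SS.mpr hj)
    rw [h1, mem_SS] at h2
    exact h2
  · intro j hj j' hj' hjj
    rw [mem_AA] at hj hj'
    have h1 := block_fixed hZ h i j hj
    have h1' := block_fixed hZ h i j' hj'
    have h2 := h.2.1 _ (mem_SS.mpr hj) _ (mem_SS.mpr hj') (lex_lt_same.mpr hjj)
    rw [h1, h1', lex_lt_same] at h2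
    exact h2
  · intro j hj j' hj'
    rw [mem_AA] at hj hj'
    have h1 := block_fixed hZ h i j hj
    have h1' := block_fixed hZ h i j' hj'
    have h2 := h.2.2 _ (mem_SS.mpr hj) _ (mem_SS.mpr hj')
    rw [h1, h1'] at h2
    unfold vv at h2
    simp only [ofLex_toLex] at h2
    rw [lex_lt_same, lex_lt_same] at h2
    exact h2

theorem emb_glue {k : ℕ} {Z Z' : Fin k → ℕ} (h : ∀ i, ∃ g, Emb bv (AA (Z i)) (AA (Z' i)) g) :
    ∃ f, Emb (vv k) (SS k Z) (SS k Z') f := by
  choose g hg using h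
  refine ⟨fun p => toLex ((ofLex p).1, g (ofLex p).1 (ofLex p).2), ?_, ?_, ?_⟩
  · intro p hp
    obtain ⟨⟨i, j⟩, rfl⟩ := toLex.surjective p
    simp only [ofLex_toLex]
    rw [mem_SS] at hp ⊢
    rw [← mem_AA] at hp ⊢
    exact (hg i).1 j hp
  · intro p hp q hq hpq
    obtain ⟨⟨i, j⟩, rfl⟩ := toLex.surjective p
    obtain ⟨⟨i', j'⟩, rfl⟩ := toLex.surjective q
    simp only [ofLex_toLex]
    rw [mem_SS] at hp hq
    rw [lex_lt] at hpq ⊢
    rcases hpq with h1 | ⟨h1, h2⟩
    · exact Or.inl h1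
    · subst h1
      exact Or.inr ⟨rfl, (hg i).2.1 j (mem_AA.mpr hp) j' (mem_AA.mpr hq) h2⟩
  · intro p hp q hq
    obtain ⟨⟨i, j⟩, rfl⟩ := toLex.surjective p
    obtain ⟨⟨i', j'⟩, rfl⟩ := toLex.surjective q
    rw [mem_SS] at hp hq
    unfold vv
    simp only [ofLex_toLex]
    rw [lex_lt, lex_lt]
    constructor
    · rintro (h1 | ⟨h1, h2⟩)
      · exact Or.inl h1
      · subst h1
        exact Or.inr ⟨rfl, ((hg i).2.2 j (mem_AA.mpr hp) j' (mem_AA.mpr hq)).mp h2⟩
    · rintro (h1 | ⟨h1, h2⟩)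
      · exact Or.inl h1
      · subst h1
        exact Or.inr ⟨rfl, ((hg i).2.2 j (mem_AA.mpr hp) j' (mem_AA.mpr hq)).mpr h2⟩

/-- pattern of a coded set -/
noncomputable def PT (k : ℕ) (Z : Fin k → ℕ) : PP := pat (vv k) (vv_inj k) (SS k Z)

theorem PT_eq_iff {k : ℕ} {Z Z' : Fin k → ℕ} (hZ : ∀ i, Z i < 256) (hZ' : ∀ i, Z' i < 256) :
    PT k Z = PT k Z' ↔ ∀ i, cid (Z i) = cid (Z' i) := by
  unfold PT
  rw [pat_eq_iff]
  constructor
  · rintro ⟨⟨f, hf⟩, ⟨g, hg⟩⟩ i
    obtain ⟨f', hf'⟩ := emb_restrict hZ hf i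
    obtain ⟨g', hg'⟩ := emb_restrict hZ' hg i
    rw [cid_eq_iff (hZ i) (hZ' i)]
    exact code_of_emb hf' hg'
  · intro h
    have h1 : ∀ i, code (Z i) = code (Z' i) := fun i => (cid_eq_iff (hZ i) (hZ' i)).mp (h i)
    exact ⟨emb_glue (fun i => emb_of_code (h1 i)), emb_glue (fun i => emb_of_code (h1 i).symm)⟩

theorem testBit_high {Z r : ℕ} (hZ : Z < 256) (hr : 8 ≤ r) : Z.testBit r = false := by
  apply Nat.testBit_eq_false_of_lt
  calc Z < 2 ^ 8 := by norm_num; exact hZ
    _ ≤ 2 ^ r := Nat.pow_le_pow_right (by norm_num) hr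

theorem land_eq_of {Z X : ℕ} (hZ : Z < 256)
    (h : ∀ r : Fin 8, Z.testBit r.1 = true → X.testBit r.1 = true) : Z &&& X = Z := by
  apply Nat.eq_of_testBit_eq
  intro r
  rw [Nat.testBit_and]
  by_cases hr : r < 8
  · cases hz : Z.testBit r
    · simp
    · have := h ⟨r, hr⟩ hz
      simp only at this
      rw [this]
      rfl
  · rw [testBit_high hZ (not_lt.mp hr)]
    rfl

theorem inA_mono {Z X : ℕ} (hZ : Z < 256) (hX : X < 256) (h : Z &&& X = Z) (j : Fin 16)
    (hj : inA Z j = true) : inA X j = true := by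
  rcases classify' j with ⟨c, r, rfl⟩ | ⟨r, rfl⟩
  · exact inA_grp c r hX
  · rw [inA_fre r hZ] at hj
    rw [inA_fre r hX]
    rw [← h, Nat.testBit_and, Bool.and_eq_true] at hj
    exact hj.2

theorem SS_mono {k : ℕ} {Z X : Fin k → ℕ} (hZ : ∀ i, Z i < 256) (hX : ∀ i, X i < 256)
    (h : ∀ i, Z i &&& X i = Z i) : SS k Z ⊆ SS k X := by
  intro p hp
  obtain ⟨⟨i, j⟩, rfl⟩ := toLex.surjective p
  rw [mem_SS] at hp ⊢
  exact inA_mono (hZ i) (hX i) (h i) j hp

/-- index set of the elements below `X` -/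
def subs (k : ℕ) (X : Fin k → ℕ) : Finset (Fin k → ℕ) := Fintype.piFinset (fun i => sub (X i))

theorem mem_subs {k : ℕ} {X Z : Fin k → ℕ} :
    Z ∈ subs k X ↔ (∀ i, Z i < 256) ∧ ∀ i, Z i &&& X i = Z i := by
  unfold subs sub
  rw [Fintype.mem_piFinset]
  simp only [Finset.mem_filter, Finset.mem_range]
  exact forall_and

/-- The smaller permutation of the pair. -/
noncomputable def sg (k : ℕ) : PP := PT k (fun _ => 0)

theorem sg_le {k : ℕ} {Z : Fin k → ℕ} (hZ : ∀ i, Z i < 256) : PLe (sg k) (PT k Z) := by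
  apply pat_mono
  apply SS_mono (fun _ => by norm_num) hZ
  intro i
  simp

theorem interval {k : ℕ} {X : Fin k → ℕ} (hX : ∀ i, X i < 256) (z : PP) :
    (PLe (sg k) z ∧ PLe z (PT k X)) ↔ ∃ Z ∈ subs k X, PT k Z = z := by
  constructor
  · rintro ⟨h1, h2⟩
    obtain ⟨A, hA, rfl⟩ := exists_subset_of_ple (vv k) (vv_inj k) h2
    unfold sg PT at h1
    rw [pat_ple_pat] at h1
    obtain ⟨f, hf⟩ := h1
    have hfr : ∀ i c r, (toLex (i, grp c r) : LL k) ∈ A := by
      intro i c r
      have h3 := rigid (fun _ => by norm_num) hf i c r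
      have h4 := hf.1 (toLex (i, grp c r)) (mem_SS.mpr (inA_grp c r (by norm_num)))
      rwa [h3] at h4
    let Z : Fin k → ℕ := fun i => Nat.ofBits (fun r : Fin 8 => decide ((toLex (i, fre r) : LL k) ∈ A))
    have hZlt : ∀ i, Z i < 256 := by
      intro i
      have := Nat.ofBits_lt_two_pow (fun r : Fin 8 => decide ((toLex (i, fre r) : LL k) ∈ A))
      simpa using this
    have hbit : ∀ i (r : Fin 8), (Z i).testBit r.1 = true ↔ (toLex (i, fre r) : LL k) ∈ A := by
      intro i r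
      have := Nat.testBit_ofBits_lt (f := fun r : Fin 8 => decide ((toLex (i, fre r) : LL k) ∈ A))
        r.1 r.2
      show (Nat.ofBits (fun r : Fin 8 => decide ((toLex (i, fre r) : LL k) ∈ A))).testBit r.1 = true
        ↔ _
      rw [this]
      simp
    have hSS : SS k Z = A := by
      ext p
      obtain ⟨⟨i, j⟩, rfl⟩ := toLex.surjective p
      rw [mem_SS]
      rcases classify' j with ⟨c, r, rfl⟩ | ⟨r, rfl⟩
      · exact ⟨fun _ => hfr i c r, fun _ => inA_grp c r (hZlt i)⟩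
      · rw [inA_fre r (hZlt i)]
        exact hbit i r
    refine ⟨Z, ?_, ?_⟩
    · rw [mem_subs]
      refine ⟨hZlt, ?_⟩
      intro i
      apply land_eq_of (hZlt i)
      intro r hr
      rw [hbit] at hr
      have := hA hr
      rw [mem_SS, inA_fre r (hX i)] at this
      exact this
    · unfold PT
      rw [hSS]
  · rintro ⟨Z, hZ, rfl⟩
    rw [mem_subs] at hZ
    refine ⟨sg_le hZ.1, ?_⟩
    apply pat_mono
    exact SS_mono hZ.1 hX hZ.2

theorem mob_sum_finset {x y : PP} (hne : x ≠ y) (h : PLe x y) (I : Finset PP)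
    (hI : ∀ z, z ∈ I ↔ PLe x z ∧ PLe z y) : ∑ z ∈ I, mob x z = 0 := by
  classical
  have h1 := mob_sum hne h
  rw [Finset.sum_sigma'] at h1
  rw [← Finset.sum_filter] at h1
  rw [← h1]
  apply Finset.sum_congr
  · ext z
    rw [hI, Finset.mem_filter, Finset.mem_sigma, Finset.mem_range]
    constructor
    · intro hz
      refine ⟨⟨?_, Finset.mem_univ _⟩, hz⟩
      have := hz.2.card_le
      omega
    · intro hz
      exact hz.2
  · intro z _
    rfl

theorem sum_image_congr {ι A B : Type} [DecidableEq A] [DecidableEq B] (s : Finset ι)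
    (ψ : ι → A) (κ : ι → B) (h : ∀ z ∈ s, ∀ z' ∈ s, (ψ z = ψ z' ↔ κ z = κ z'))
    (g : A → ℤ) (g' : B → ℤ) (hg : ∀ z ∈ s, g (ψ z) = g' (κ z)) :
    ∑ a ∈ s.image ψ, g a = ∑ b ∈ s.image κ, g' b := by
  have hch : ∀ a ∈ s.image ψ, ∃ z ∈ s, ψ z = a := fun a ha => Finset.mem_image.mp ha
  choose t ht1 ht2 using hch
  apply Finset.sum_bij (fun a ha => κ (t a ha))
  · intro a ha
    exact Finset.mem_image_of_mem κ (ht1 a ha)
  · intro a ha a' ha' haa
    have := (h _ (ht1 a ha) _ (ht1 a' ha')).mpr haa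
    rw [ht2, ht2] at this
    exact this
  · intro b hb
    obtain ⟨z, hz, rfl⟩ := Finset.mem_image.mp hb
    refine ⟨ψ z, Finset.mem_image_of_mem ψ hz, ?_⟩
    rw [← h _ (ht1 _ _) _ hz]
    exact ht2 _ _
  · intro a ha
    rw [← hg _ (ht1 a ha), ht2]

theorem cid_ne_zero : ∀ X ∈ List.range 256, X ≠ 0 → cid X ≠ cid 0 := by
  decide +kernel

theorem mob_PT {k : ℕ} : ∀ (n : ℕ) (X : Fin k → ℕ), (∀ i, X i < 256) → (SS k X).card = n →
    mob (sg k) (PT k X) = ∏ i, mv (cid (X i)) := by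
  classical
  intro n
  induction n using Nat.strong_induction_on with
  | _ n ih =>
  intro X hX hn
  by_cases h0 : ∀ i, X i = 0
  · have : X = fun _ => 0 := funext h0
    rw [this]
    show mob (sg k) (sg k) = _
    rw [mob_self]
    simp [mv_zero]
  · push Not at h0
    obtain ⟨i0, hi0⟩ := h0
    have hne : sg k ≠ PT k X := by
      intro h
      unfold sg at h
      rw [PT_eq_iff (fun _ => by norm_num) hX] at h
      exact cid_ne_zero (X i0) (List.mem_range.mpr (hX i0)) hi0 (h i0).symm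
    have hle := sg_le hX
    have hsum := mob_sum_finset hne hle ((subs k X).image (PT k)) (by
      intro z
      rw [interval hX, Finset.mem_image])
    let κ : (Fin k → ℕ) → (Fin k → ℕ) := fun Z i => cid (Z i)
    have hker : ∀ Z ∈ subs k X, ∀ Z' ∈ subs k X, (PT k Z = PT k Z' ↔ κ Z = κ Z') := by
      intro Z hZ Z' hZ'
      rw [mem_subs] at hZ hZ'
      rw [PT_eq_iff hZ.1 hZ'.1]
      constructor
      · intro h
        exact funext h
      · intro h i
        exact congrFun h i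
    have hXs : X ∈ subs k X := by
      rw [mem_subs]
      exact ⟨hX, fun i => Nat.and_self _⟩
    let g : PP → ℤ := fun z => if z = PT k X then ∏ i, mv (cid (X i)) else mob (sg k) z
    have h1 : ∑ z ∈ (subs k X).image (PT k), g z =
        ∑ c ∈ (subs k X).image κ, ∏ i, mv (c i) := by
      apply sum_image_congr (subs k X) (PT k) κ hker
      intro Z hZ
      by_cases hZX : PT k Z = PT k X
      · have := (hker Z hZ X hXs).mp hZX
        simp only [g, if_pos hZX]
        have h2 : ∀ i, cid (Z i) = cid (X i) := fun i => congrFun this i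
        simp only [κ, h2]
      · simp only [g, if_neg hZX]
        have hZ2 := mem_subs.mp hZ
        have hsub : SS k Z ⊆ SS k X := SS_mono hZ2.1 hX hZ2.2
        have hlt : (SS k Z).card < n := by
          rw [← hn]
          apply Finset.card_lt_card
          rw [Finset.ssubset_iff_subset_ne]
          refine ⟨hsub, ?_⟩
          intro h
          apply hZX
          unfold PT
          rw [h]
        exact ih _ hlt Z hZ2.1 rfl
    have h2 : ∑ c ∈ (subs k X).image κ, ∏ i, mv (c i) = 0 := by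
      have h3 : (subs k X).image κ = Fintype.piFinset (fun i => (sub (X i)).image cid) := by
        unfold subs
        rw [Fintype.piFinset_image (fun _ => cid) (fun i => sub (X i))]
      rw [h3, ← Finset.prod_univ_sum]
      apply Finset.prod_eq_zero (Finset.mem_univ i0)
      exact sum_classes (hX i0) hi0
    have h3 : ∑ z ∈ (subs k X).image (PT k), (mob (sg k) z - g z) = 0 := by
      rw [Finset.sum_sub_distrib, hsum, h1, h2]
      norm_num
    rw [Finset.sum_eq_single (PT k X)] at h3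
    · simp only [g, if_pos] at h3
      linarith
    · intro z _ hz
      simp only [g, if_neg hz]
      ring
    · intro hz
      exact absurd (Finset.mem_image_of_mem _ hXs) hz

/-- The larger permutation of the pair. -/
noncomputable def tu (k : ℕ) : PP := PT k (fun _ => 255)

theorem mob_sg_tu (k : ℕ) : mob (sg k) (tu k) = 2 ^ k := by
  unfold tu
  rw [mob_PT _ (fun _ => 255) (fun _ => by norm_num) rfl]
  simp [mv_full]

theorem unique_occ (k : ℕ) : {e : Fin (sg k).1 → Fin (tu k).1 | StrictMono e ∧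
    ∀ i j, (sg k).2 i < (sg k).2 j ↔ (tu k).2 (e i) < (tu k).2 (e j)}.ncard = 1 := by
  have h0 : PLe (sg k) (tu k) := sg_le (fun _ => by norm_num)
  obtain ⟨e0, he0, h0⟩ := h0
  rw [Set.ncard_eq_one]
  refine ⟨e0, ?_⟩
  ext e
  rw [Set.mem_ofPred_eq, Set.mem_singleton_iff]
  constructor
  · rintro ⟨he, h⟩
    obtain ⟨f0, hf0, hfe0⟩ := exists_emb (vv k) (vv_inj k) (A := SS k (fun _ => 0))
      (B := SS k (fun _ => 255)) e0 he0 h0
    obtain ⟨f1, hf1, hfe1⟩ := exists_emb (vv k) (vv_inj k) (A := SS k (fun _ => 0))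
      (B := SS k (fun _ => 255)) e he h
    have hfix : ∀ (f : LL k → LL k), Emb (vv k) (SS k (fun _ => 0)) (SS k (fun _ => 255)) f →
        ∀ p ∈ SS k (fun _ => 0), f p = p := by
      intro f hf p hp
      obtain ⟨⟨i, j⟩, rfl⟩ := toLex.surjective p
      rw [mem_SS] at hp
      rcases classify' j with ⟨c, r, rfl⟩ | ⟨r, rfl⟩
      · exact rigid (fun _ => by norm_num) hf i c r
      · rw [inA_fre r (by norm_num)] at hp
        simp at hp
    funext i
    have h1 := hfe0 i
    have h2 := hfe1 i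
    rw [hfix f0 hf0 _ (enm_mem _ i)] at h1
    rw [hfix f1 hf1 _ (enm_mem _ i)] at h2
    rw [h1] at h2
    exact ((enm_strictMono (SS k (fun _ => 255))).injective h2).symm
  · rintro rfl
    exact ⟨he0, h0⟩

end Pool.Agent.Helper64
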